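import Pool.Agent.W229.HD.Stm

/-!
# The size of the coupling of a heterochiral triad
-/

set_option autoImplicit false
set_option linter.all false

namespace Pool.Agent.W762.HD

open Pool.Agent.W229.HD

noncomputable section

theorem norm_sq3 (a : E3) : ‖a‖ ^ 2 = Complex.normSq (a 0) + Complex.normSq (a 1)
    + Complex.normSq (a 2) := by
  rw [EuclideanSpace.norm_sq_eq, Fin.sum_univ_three]
  simp only [Complex.sq_norm]

theorem lagrange (a b : E3) : ‖cr a b‖ ^ 2 + ‖dt a (cj b)‖ ^ 2 = ‖a‖ ^ 2 * ‖b‖ ^ 2 := by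
  rw [norm_sq3, norm_sq3, norm_sq3, Complex.sq_norm]
  unfold cr dt cj
  simp only [Fin.sum_univ_three, Matrix.cons_val_zero, Matrix.cons_val_one, Matrix.cons_val]
  simp only [Complex.normSq_apply, Complex.sub_re, Complex.sub_im, Complex.mul_re, Complex.mul_im,
    Complex.add_re, Complex.add_im, Complex.star_def, Complex.conj_re, Complex.conj_im]
  ring

theorem norm_cr_le (a b : E3) : ‖cr a b‖ ≤ ‖a‖ * ‖b‖ := by
  have h := lagrange a b
  have h1 : ‖cr a b‖ ^ 2 ≤ (‖a‖ * ‖b‖) ^ 2 := by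
    rw [mul_pow, ← h]
    have := sq_nonneg ‖dt a (cj b)‖
    linarith
  exact (pow_le_pow_iff_left₀ (norm_nonneg _) (by positivity) two_ne_zero).1 h1

theorem norm_cj (b : E3) : ‖cj b‖ = ‖b‖ := by
  have h1 : ‖cj b‖ ^ 2 = ‖b‖ ^ 2 := by
    rw [norm_sq3, norm_sq3]
    unfold cj
    simp only [Complex.star_def, Complex.normSq_conj]
  exact (pow_left_inj₀ (norm_nonneg _) (norm_nonneg _) two_ne_zero).1 h1

theorem cj_cj (b : E3) : cj (cj b) = b := by
  unfold cj
  ext j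
  simp

theorem norm_dt_le (a b : E3) : ‖dt a b‖ ≤ ‖a‖ * ‖b‖ := by
  have h := lagrange a (cj b)
  rw [cj_cj, norm_cj] at h
  have h1 : ‖dt a b‖ ^ 2 ≤ (‖a‖ * ‖b‖) ^ 2 := by
    rw [mul_pow, ← h]
    have := sq_nonneg ‖cr a (cj b)‖
    linarith
  exact (pow_le_pow_iff_left₀ (norm_nonneg _) (by positivity) two_ne_zero).1 h1

theorem norm_kc (k : K3) : ‖kc k‖ = nm k := by
  unfold nm
  rw [EuclideanSpace.norm_eq]
  congr 1
  apply Finset.sum_congr rfl
  intro j _
  unfold kc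
  simp only [Complex.norm_intCast, sq_abs]

theorem dt_kc_cj (k : K3) (c : E3) : dt (kc k) (cj c) = star (dt (kc k) c) := by
  unfold dt kc cj
  simp only [Complex.star_def, map_sum, map_mul, map_intCast]

theorem real_lagrange (k : K3) (c : E3) :
    nm k ^ 2 * ‖c‖ ^ 2 = ‖dt (kc k) c‖ ^ 2 + ‖cr (kc k) c‖ ^ 2 := by
  have h := lagrange (kc k) c
  rw [dt_kc_cj, norm_star, norm_kc] at h
  linarith

theorem nm_nonneg (k : K3) : 0 ≤ nm k := Real.sqrt_nonneg _

theorem nm_pos (k : K3) (hk : k ≠ 0) : 0 < nm k := by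
  unfold nm
  apply Real.sqrt_pos.2
  obtain ⟨j, hj⟩ : ∃ j, k j ≠ 0 := by
    by_contra h
    push Not at h
    exact hk (funext h)
  have h1 : (k j : ℝ) ^ 2 ≤ ∑ j, (k j : ℝ) ^ 2 :=
    Finset.single_le_sum (f := fun j => (k j : ℝ) ^ 2) (fun i _ => sq_nonneg _)
      (Finset.mem_univ j)
  have h2 : (0 : ℝ) < (k j : ℝ) ^ 2 := by
    have : (k j : ℝ) ≠ 0 := by exact_mod_cast hj
    positivity
  linarith

theorem nm_neg (k : K3) : nm (-k) = nm k := by
  unfold nm
  simp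

theorem kc_add (x y : K3) : kc (x + y) = kc x + kc y := by
  unfold kc
  ext j
  simp

theorem kc_neg (x : K3) : kc (-x) = -kc x := by
  unfold kc
  ext j
  simp

theorem nm_tri (x y : K3) : |nm x - nm y| ≤ nm (x + y) := by
  rw [← norm_kc, ← norm_kc, ← norm_kc, kc_add]
  have := abs_norm_sub_norm_le (kc x) (-kc y)
  rwa [norm_neg, sub_neg_eq_add] at this

/-! ### bilinear algebra -/

theorem dt_comm (a b : E3) : dt a b = dt b a := by
  unfold dt
  apply Finset.sum_congr rfl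
  intro j _
  ring

theorem dt_add_left (a b c : E3) : dt (a + b) c = dt a c + dt b c := by
  unfold dt
  rw [← Finset.sum_add_distrib]
  apply Finset.sum_congr rfl
  intro j _
  simp only [PiLp.add_apply]
  ring

theorem dt_neg_left (a c : E3) : dt (-a) c = -dt a c := by
  unfold dt
  rw [← Finset.sum_neg_distrib]
  apply Finset.sum_congr rfl
  intro j _
  simp only [PiLp.neg_apply]
  ring

theorem dt_smul_left (t : ℂ) (a c : E3) : dt (t • a) c = t * dt a c := by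
  unfold dt
  rw [Finset.mul_sum]
  apply Finset.sum_congr rfl
  intro j _
  simp only [PiLp.smul_apply, smul_eq_mul]
  ring

theorem dt_cr (a b c : E3) : dt (cr a b) c = dt a (cr b c) := by
  unfold dt cr
  simp only [Fin.sum_univ_three, Matrix.cons_val_zero, Matrix.cons_val_one, Matrix.cons_val]
  ring

theorem cr_anti (a b : E3) : cr a b = -cr b a := by
  unfold cr
  ext j
  fin_cases j
  · simp; ring
  · simp; ring
  · simp; ring

theorem cr_cr (a b c : E3) : cr a (cr b c) = dt a c • b - dt a b • c := by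
  unfold cr dt
  ext j
  fin_cases j
  · simp [Fin.sum_univ_three]; ring
  · simp [Fin.sum_univ_three]; ring
  · simp [Fin.sum_univ_three]; ring

/-- the main estimate: `|y| |v × w| ≤ 2 |x| |v| |w|` -/
theorem core (x y : K3) (σ : ℝ) (hσ : |σ| = 1) (v w : E3)
    (hx : x ≠ 0) (hXY : nm x ≤ nm y) (hXZ : nm x ≤ nm (x + y))
    (hyv : dt (kc y) v = 0) (cyv : cr (kc y) v = (-(Complex.I * ((σ * nm y : ℝ) : ℂ))) • v)
    (hzw : dt (kc (-(x + y))) w = 0)
    (czw : cr (kc (-(x + y))) w = (Complex.I * ((σ * nm (x + y) : ℝ) : ℂ)) • w) :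
    nm y * ‖cr v w‖ ≤ 2 * (nm x * (‖v‖ * ‖w‖)) := by
  have hX : 0 < nm x := nm_pos x hx
  have hY : 0 < nm y := hX.trans_le hXY
  have hZ : 0 < nm (x + y) := hX.trans_le hXZ
  -- (1)
  have e1 : dt (kc y) (cr v w) = -(Complex.I * ((σ * nm y : ℝ) : ℂ)) * dt v w := by
    rw [← dt_cr, cyv, dt_smul_left]
  have e2 : dt (kc (-(x + y))) (cr v w) = -(Complex.I * ((σ * nm (x + y) : ℝ) : ℂ)) * dt v w := by
    rw [cr_anti v w]
    have : dt (kc (-(x + y))) (-cr w v) = -dt (kc (-(x + y))) (cr w v) := by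
      rw [dt_comm, dt_neg_left, dt_comm]
    rw [this, ← dt_cr, czw, dt_smul_left, dt_comm w v]
    ring
  have e3 : kc x = -(kc y + kc (-(x + y))) := by
    rw [kc_neg, kc_add]
    abel
  have e4 : dt (kc x) (cr v w) = Complex.I * ((σ * (nm y + nm (x + y)) : ℝ) : ℂ) * dt v w := by
    rw [e3, dt_neg_left, dt_add_left, e1, e2]
    push_cast
    ring
  have n4 : (nm y + nm (x + y)) * ‖dt v w‖ ≤ nm x * ‖cr v w‖ := by
    have h := norm_dt_le (kc x) (cr v w)
    rw [e4, norm_kc, norm_mul, norm_mul, Complex.norm_I, one_mul, Complex.norm_real,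
      Real.norm_eq_abs, abs_mul, hσ, one_mul, abs_of_pos (by linarith)] at h
    exact h
  have n1 : ‖dt (kc y) (cr v w)‖ = nm y * ‖dt v w‖ := by
    rw [e1, norm_mul, norm_neg, norm_mul, Complex.norm_I, one_mul, Complex.norm_real,
      Real.norm_eq_abs, abs_mul, hσ, one_mul, abs_of_pos hY]
  have n5 : 2 * ‖dt v w‖ ≤ ‖cr v w‖ := by
    have h1 : 2 * nm x * ‖dt v w‖ ≤ (nm y + nm (x + y)) * ‖dt v w‖ :=
      mul_le_mul_of_nonneg_right (by linarith) (norm_nonneg _)
    have h2 : nm x * (2 * ‖dt v w‖) ≤ nm x * ‖cr v w‖ := by linarith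
    exact le_of_mul_le_mul_left h2 hX
  -- (2)
  have e5 : cr (kc y) (cr v w) = dt (kc y) w • v := by
    rw [cr_cr, hyv, zero_smul, sub_zero]
  have e6 : dt (kc y) w = -dt (kc x) w := by
    have : kc y = -(kc x) + -(kc (-(x + y))) := by
      rw [kc_neg, kc_add]
      abel
    rw [this, dt_add_left, dt_neg_left, dt_neg_left, hzw]
    simp
  have n6 : ‖cr (kc y) (cr v w)‖ ≤ nm x * (‖v‖ * ‖w‖) := by
    rw [e5, norm_smul, e6, norm_neg]
    have h := norm_dt_le (kc x) w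
    rw [norm_kc] at h
    have := mul_le_mul_of_nonneg_right h (norm_nonneg v)
    linarith
  -- (3)
  have h3 := real_lagrange y (cr v w)
  rw [n1] at h3
  have h4 : (nm y * ‖dt v w‖) ^ 2 ≤ (nm y * ‖cr v w‖) ^ 2 / 4 := by
    have h5 : nm y * (2 * ‖dt v w‖) ≤ nm y * ‖cr v w‖ := mul_le_mul_of_nonneg_left n5 hY.le
    have h6 : (nm y * (2 * ‖dt v w‖)) ^ 2 ≤ (nm y * ‖cr v w‖) ^ 2 :=
      pow_le_pow_left₀ (by positivity) h5 2
    nlinarith
  have h5 : ‖cr (kc y) (cr v w)‖ ^ 2 ≤ (nm x * (‖v‖ * ‖w‖)) ^ 2 :=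
    pow_le_pow_left₀ (norm_nonneg _) n6 2
  have h6 : (nm y * ‖cr v w‖) ^ 2 ≤ (2 * (nm x * (‖v‖ * ‖w‖))) ^ 2 := by
    have := sq_nonneg (nm x * (‖v‖ * ‖w‖))
    nlinarith
  exact (pow_le_pow_iff_left₀ (by positivity) (by positivity) two_ne_zero).1 h6

theorem sg_abs (s : Bool) : |sg s| = 1 := by
  cases s <;> simp [sg]

theorem sg_not (s : Bool) : sg (!s) = -sg s := by
  cases s <;> simp [sg]

theorem det (hHEL : S_HEL) : S_DET := by
  intro s x y hx hy hxy u v w hu hv hw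
  obtain ⟨-, -, dxu, cxu, -⟩ := hHEL s x hx u u 0
  obtain ⟨-, -, dyv, cyv, -⟩ := hHEL s y hy v v 0
  obtain ⟨-, -, dzw, czw, -⟩ := hHEL (!s) (-(x + y)) (neg_ne_zero.2 hxy) w w 0
  rw [hu] at dxu cxu
  rw [hv] at dyv cyv
  rw [hw] at dzw czw
  have czw' : cr (kc (-(x + y))) w = (Complex.I * ((sg s * nm (x + y) : ℝ) : ℂ)) • w := by
    rw [czw, sg_not, nm_neg]
    congr 1
    push_cast
    ring
  have hX : 0 < nm x := nm_pos x hx
  have hY : 0 < nm y := nm_pos y hy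
  have hZ : 0 < nm (x + y) := nm_pos _ hxy
  have hhX : nm x ≤ hi x y := le_max_left _ _
  have hhY : nm y ≤ hi x y := (le_max_left _ _).trans (le_max_right _ _)
  have hhZ : nm (x + y) ≤ hi x y := (le_max_right _ _).trans (le_max_right _ _)
  have hP : 0 ≤ ‖u‖ * ‖v‖ * ‖w‖ := by positivity
  have hlo : 0 ≤ lo x y := by
    unfold lo
    exact le_min hX.le (le_min hY.le hZ.le)
  by_cases c1 : nm x ≤ nm y ∧ nm x ≤ nm (x + y)
  · obtain ⟨c1, c2⟩ := c1
    have hlo' : lo x y = nm x := by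
      unfold lo
      exact min_eq_left (le_min c1 c2)
    have h1 := core x y (sg s) (sg_abs s) v w hx c1 c2 dyv cyv dzw czw'
    have h2 : ‖dt (cr u v) w‖ ≤ ‖u‖ * ‖cr v w‖ := by
      rw [dt_cr]
      exact norm_dt_le _ _
    have h3 : |nm x - nm y| ≤ nm y := by
      rw [abs_le]
      constructor <;> linarith
    rw [hlo']
    calc nm (x + y) * |nm x - nm y| * ‖dt (cr u v) w‖
        ≤ nm (x + y) * nm y * (‖u‖ * ‖cr v w‖) := by gcongr
      _ = nm (x + y) * (‖u‖ * (nm y * ‖cr v w‖)) := by ring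
      _ ≤ nm (x + y) * (‖u‖ * (2 * (nm x * (‖v‖ * ‖w‖)))) := by gcongr
      _ = nm (x + y) * (2 * (nm x * (‖u‖ * ‖v‖ * ‖w‖))) := by ring
      _ ≤ hi x y * (2 * (nm x * (‖u‖ * ‖v‖ * ‖w‖))) := by gcongr
      _ = 2 * (nm x * hi x y * (‖u‖ * ‖v‖ * ‖w‖)) := by ring
  · by_cases c2 : nm y ≤ nm x ∧ nm y ≤ nm (x + y)
    · obtain ⟨c2, c3⟩ := c2
      have hlo' : lo x y = nm y := by
        unfold lo
        rw [min_eq_left c3]
        exact min_eq_right c2
      have hcomm : x + y = y + x := add_comm x y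
      have h1 := core y x (sg s) (sg_abs s) u w hy c2 (by rw [← hcomm]; exact c3) dxu cxu
        (by rw [← hcomm]; exact dzw) (by rw [← hcomm]; exact czw')
      have h2 : ‖dt (cr u v) w‖ ≤ ‖v‖ * ‖cr u w‖ := by
        rw [cr_anti u v, dt_neg_left, norm_neg, dt_cr]
        exact norm_dt_le _ _
      have h3 : |nm x - nm y| ≤ nm x := by
        rw [abs_le]
        constructor <;> linarith
      rw [hlo']
      calc nm (x + y) * |nm x - nm y| * ‖dt (cr u v) w‖
          ≤ nm (x + y) * nm x * (‖v‖ * ‖cr u w‖) := by gcongr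
        _ = nm (x + y) * (‖v‖ * (nm x * ‖cr u w‖)) := by ring
        _ ≤ nm (x + y) * (‖v‖ * (2 * (nm y * (‖u‖ * ‖w‖)))) := by gcongr
        _ = nm (x + y) * (2 * (nm y * (‖u‖ * ‖v‖ * ‖w‖))) := by ring
        _ ≤ hi x y * (2 * (nm y * (‖u‖ * ‖v‖ * ‖w‖))) := by gcongr
        _ = 2 * (nm y * hi x y * (‖u‖ * ‖v‖ * ‖w‖)) := by ring
    · have c3 : nm (x + y) ≤ nm x ∧ nm (x + y) ≤ nm y := by
        rcases le_total (nm x) (nm y) with h | h
        · have h4 : nm (x + y) < nm x := by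
            by_contra h5
            exact c1 ⟨h, not_lt.1 h5⟩
          exact ⟨h4.le, by linarith⟩
        · have h4 : nm (x + y) < nm y := by
            by_contra h5
            exact c2 ⟨h, not_lt.1 h5⟩
          exact ⟨by linarith, h4.le⟩
      have hlo' : lo x y = nm (x + y) := by
        unfold lo
        rw [min_eq_right c3.2]
        exact min_eq_right c3.1
      have h2 : ‖dt (cr u v) w‖ ≤ ‖u‖ * ‖v‖ * ‖w‖ :=
        (norm_dt_le _ _).trans (mul_le_mul_of_nonneg_right (norm_cr_le u v) (norm_nonneg w))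
      have h3 := nm_tri x y
      rw [hlo']
      calc nm (x + y) * |nm x - nm y| * ‖dt (cr u v) w‖
          ≤ nm (x + y) * nm (x + y) * (‖u‖ * ‖v‖ * ‖w‖) := by gcongr
        _ ≤ nm (x + y) * hi x y * (‖u‖ * ‖v‖ * ‖w‖) := by gcongr
        _ ≤ 2 * (nm (x + y) * hi x y * (‖u‖ * ‖v‖ * ‖w‖)) := by
          have : 0 ≤ nm (x + y) * hi x y * (‖u‖ * ‖v‖ * ‖w‖) :=
            mul_nonneg (mul_nonneg hZ.le (hZ.le.trans hhZ)) hP
          linarith

end

end Pool.Agent.W762.HD
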